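import Mathlib
import Pool.Agent.H581R2.QE
import Pool.Agent.Q201.AlgSmooth

set_option autoImplicit false

/-!
# Smooth functions definable in `(ℝ, <, +, · restricted to (0,1)², ℤ)` are affine

By Tarski–Seidenberg, for every definable set `p ⊆ ℝ^n` there are only finitely many sets among the
translates `{t ∈ [0,1)^n : a + t ∈ p}` (`a ∈ ℤ^n`), all of them semialgebraic.  For the graph of a
definable function `f` it follows that `Q(frac x, frac (f x)) = 0` for a nonzero polynomial `Q`, so `f`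
is algebraic on bounded intervals, and that for some integers `a < a'` and `k` we have
`f (a' + s) = f (a + s) + k` for all `s ∈ [0,1)`.  If `f` is smooth then the last equation holds for
all real `s`, by an identity principle for smooth algebraic functions, and a smooth function,
algebraic on bounded intervals, with a quasi-period is affine.
-/

namespace Pool.Agent.Results.MP_2d1a26_lc.SmoothIsAffine

open FirstOrder FirstOrder.Language
open Pool.Agent.H581R2
open scoped ContDiff Polynomial.Bivariate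

/-- Function symbols: addition. -/
inductive WFunc : ℕ → Type
  | add : WFunc 2

/-- Relation symbols: the order, the graph of the restricted multiplication, the integers. -/
inductive WRel : ℕ → Type
  | lt : WRel 2
  | mul : WRel 3
  | int : WRel 1

/-- The language of the structure. -/
def LW : FirstOrder.Language := ⟨WFunc, WRel⟩

/-- The structure `(ℝ, <, +, · restricted to (0,1)², ℤ)`. -/
instance structW : LW.Structure ℝ where
  funMap := fun {_} f x => match f with
    | .add => x 0 + x 1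
  RelMap := fun {_} r x => match r with
    | .lt => x 0 < x 1
    | .mul => (0 < x 0 ∧ x 0 < 1) ∧ (0 < x 1 ∧ x 1 < 1) ∧ x 2 = x 0 * x 1
    | .int => ∃ n : ℤ, x 0 = n

/-- The function `f : ℝ → ℝ` is definable with parameters. -/
def DefinableFun (f : ℝ → ℝ) : Prop :=
  (Set.univ : Set ℝ).Definable LW {p : Fin 2 → ℝ | p 1 = f (p 0)}

/-! ### Definable sets -/

variable {ι ι' : Type}

/-- Finitely many semialgebraic sets among the intersections with the unit boxes. -/
def Dd (p : (ι → ℝ) → Prop) : Prop :=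
  ∃ (κ : Type) (_ : Finite κ) (S : κ → (ι → ℝ) → Prop), (∀ j, SAP (S j)) ∧
    ∀ n : ι → ℤ, ∃ j, ∀ t : ι → ℝ, (∀ i, 0 ≤ t i ∧ t i < 1) → (p (fun i => n i + t i) ↔ S j t)

theorem Dd.not {p : (ι → ℝ) → Prop} (h : Dd p) : Dd (fun v => ¬ p v) := by
  obtain ⟨κ, hκ, S, hS, h⟩ := h
  refine ⟨κ, hκ, fun j v => ¬ S j v, fun j => (hS j).not, fun n => ?_⟩
  obtain ⟨j, hj⟩ := h n
  exact ⟨j, fun t ht => not_congr (hj t ht)⟩

theorem Dd.and {p q : (ι → ℝ) → Prop} (h : Dd p) (h' : Dd q) : Dd (fun v => p v ∧ q v) := by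
  obtain ⟨κ, hκ, S, hS, h⟩ := h
  obtain ⟨κ', hκ', S', hS', h'⟩ := h'
  refine ⟨κ × κ', inferInstance, fun j v => S j.1 v ∧ S' j.2 v,
    fun j => (hS j.1).and (hS' j.2), fun n => ?_⟩
  obtain ⟨j, hj⟩ := h n
  obtain ⟨j', hj'⟩ := h' n
  exact ⟨(j, j'), fun t ht => and_congr (hj t ht) (hj' t ht)⟩

theorem Dd.congr {p q : (ι → ℝ) → Prop} (h : Dd p) (hpq : ∀ v, q v ↔ p v) : Dd q := by
  have : q = p := funext fun v => propext (hpq v)
  rwa [this]

theorem Dd.imp {p q : (ι → ℝ) → Prop} (h : Dd p) (h' : Dd q) : Dd (fun v => p v → q v) :=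
  (h.and h'.not).not.congr fun v => by tauto

theorem Dd.comp {p : (ι → ℝ) → Prop} (h : Dd p) (g : ι → ι') : Dd (fun v : ι' → ℝ => p (v ∘ g)) := by
  obtain ⟨κ, hκ, S, hS, h⟩ := h
  refine ⟨κ, hκ, fun j v => S j (v ∘ g), fun j => (hS j).preimage fun k => PF.coord (g k),
    fun n => ?_⟩
  obtain ⟨j, hj⟩ := h (n ∘ g)
  exact ⟨j, fun t ht => hj (t ∘ g) fun i => ht (g i)⟩

theorem Dd.exists {p : (Option ι → ℝ) → Prop} (h : Dd p) : Dd (fun v : ι → ℝ => ∃ x, p (ext x v)) := by
  classical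
  obtain ⟨κ, hκ, S, hS, h⟩ := h
  refine ⟨Set κ, inferInstance, fun J v => ∃ j : κ, j ∈ J ∧ ∃ s : ℝ, (0 ≤ s ∧ s < 1) ∧ S j (ext s v),
    fun J => ?_, fun n => ?_⟩
  · refine SAP.exists_fin fun j => (SAP.const _).and ?_
    have h1 : SAP (fun w : Option ι → ℝ => (0 ≤ w none ∧ w none < 1) ∧ S j w) :=
      ((SAP.le PF.zero (PF.coord none)).and (SAP.lt (PF.coord none) PF.one)).and (hS j)
    exact h1.exists_real
  · choose j hj using h
    let nk : ℤ → Option ι → ℤ := fun k o => o.elim k n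
    refine ⟨Set.range fun k => j (nk k), fun t ht => ?_⟩
    constructor
    · rintro ⟨x, hx⟩
      refine ⟨_, ⟨⌊x⌋, rfl⟩, Int.fract x, ⟨Int.fract_nonneg x, Int.fract_lt_one x⟩, ?_⟩
      refine (hj (nk ⌊x⌋) (ext (Int.fract x) t) ?_).1 ?_
      · rintro (_ | i)
        · exact ⟨Int.fract_nonneg x, Int.fract_lt_one x⟩
        · exact ht i
      · have : (fun i => (nk ⌊x⌋ i : ℝ) + ext (Int.fract x) t i) = ext x fun i => n i + t i := by
          funext o
          rcases o with _ | i
          · exact Int.floor_add_fract x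
          · rfl
        rw [this]; exact hx
    · rintro ⟨_, ⟨k, rfl⟩, s, hs, hS⟩
      refine ⟨k + s, ?_⟩
      have h1 := (hj (nk k) (ext s t) (by
        rintro (_ | i)
        · exact hs
        · exact ht i)).2 hS
      have : (fun i => (nk k i : ℝ) + ext s t i) = ext (k + s) fun i => n i + t i := by
        funext o
        rcases o with _ | i <;> rfl
      rw [this] at h1
      exact h1

/-- integers equal up to fractional parts -/
theorem int_eq {a b : ℤ} {s t : ℝ} (hs : 0 ≤ s ∧ s < 1) (ht : 0 ≤ t ∧ t < 1) :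
    (a : ℝ) + s = b + t ↔ a = b ∧ s = t := by
  constructor
  · intro h
    have h1 : ((a - b : ℤ) : ℝ) < 1 := by push_cast; linarith [hs.1, ht.2]
    have h2 : (-1 : ℝ) < ((a - b : ℤ) : ℝ) := by push_cast; linarith [ht.1, hs.2]
    have h3 : a - b < 1 := by exact_mod_cast h1
    have h4 : -1 < a - b := by exact_mod_cast h2
    obtain rfl : a = b := by omega
    exact ⟨rfl, by linarith⟩
  · rintro ⟨rfl, rfl⟩; rfl

theorem int_lt {a b : ℤ} {s t : ℝ} (hs : 0 ≤ s ∧ s < 1) (ht : 0 ≤ t ∧ t < 1) :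
    (a : ℝ) + s < b + t ↔ a < b ∨ (a = b ∧ s < t) := by
  rcases lt_trichotomy a b with h | rfl | h
  · have : (a : ℝ) + 1 ≤ b := by exact_mod_cast h
    simp only [h, true_or, iff_true]
    linarith [hs.2, ht.1]
  · simp
  · have : (b : ℝ) + 1 ≤ a := by exact_mod_cast h
    have h2 : ¬ a < b := by omega
    have h3 : a ≠ b := by omega
    simp only [h2, h3, false_and, or_self, iff_false, not_lt]
    linarith [ht.2, hs.1]

theorem Dd.eq (i j : ι) : Dd (fun v : ι → ℝ => v i = v j) := by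
  refine ⟨Bool, inferInstance, fun b v => b = true ∧ v i = v j,
    fun b => (SAP.const _).and (SAP.eq (PF.coord i) (PF.coord j)), fun n => ?_⟩
  refine ⟨decide (n i = n j), fun t ht => ?_⟩
  change (n i : ℝ) + t i = n j + t j ↔ _
  rw [int_eq (ht i) (ht j)]
  simp

theorem Dd.lt (i j : ι) : Dd (fun v : ι → ℝ => v i < v j) := by
  refine ⟨Bool × Bool, inferInstance, fun b v => b.1 = true ∨ (b.2 = true ∧ v i < v j),
    fun b => (SAP.const _).or ((SAP.const _).and (SAP.lt (PF.coord i) (PF.coord j))), fun n => ?_⟩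
  refine ⟨(decide (n i < n j), decide (n i = n j)), fun t ht => ?_⟩
  change (n i : ℝ) + t i < n j + t j ↔ _
  rw [int_lt (ht i) (ht j)]
  simp

theorem Dd.add (k i j : ι) : Dd (fun v : ι → ℝ => v k = v i + v j) := by
  refine ⟨Bool × Bool, inferInstance, fun b v => (b.1 = true ∧ v k = v i + v j) ∨
    (b.2 = true ∧ v k + 1 = v i + v j),
    fun b => ((SAP.const _).and (SAP.eq (PF.coord k) ((PF.coord i).add (PF.coord j)))).or
      ((SAP.const _).and (SAP.eq ((PF.coord k).add PF.one) ((PF.coord i).add (PF.coord j)))),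
    fun n => ?_⟩
  refine ⟨(decide (n k = n i + n j), decide (n k = n i + n j + 1)), fun t ht => ?_⟩
  simp only [decide_eq_true_eq]
  obtain ⟨hk0, hk1⟩ := ht k
  obtain ⟨hi0, hi1⟩ := ht i
  obtain ⟨hj0, hj1⟩ := ht j
  constructor
  · intro h
    have h1 : ((n k - n i - n j : ℤ) : ℝ) < 2 := by push_cast; linarith
    have h2 : (-1 : ℝ) < ((n k - n i - n j : ℤ) : ℝ) := by push_cast; linarith
    have h3 : n k - n i - n j < 2 := by exact_mod_cast h1
    have h4 : -1 < n k - n i - n j := by exact_mod_cast h2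
    have h5 : n k = n i + n j ∨ n k = n i + n j + 1 := by omega
    rcases h5 with h5 | h5
    · left
      refine ⟨h5, ?_⟩
      rw [h5] at h; push_cast at h; linarith
    · right
      refine ⟨h5, ?_⟩
      rw [h5] at h; push_cast at h; linarith
  · rintro (⟨h5, h⟩ | ⟨h5, h⟩)
    · rw [h5]; push_cast; linarith
    · rw [h5]; push_cast; linarith

theorem Dd.mul (i j k : ι) : Dd (fun v : ι → ℝ => (0 < v i ∧ v i < 1) ∧ (0 < v j ∧ v j < 1) ∧
    v k = v i * v j) := by
  refine ⟨Bool, inferInstance, fun b v => b = true ∧ (0 < v i ∧ 0 < v j ∧ v k = v i * v j),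
    fun b => (SAP.const _).and ((SAP.lt PF.zero (PF.coord i)).and
      ((SAP.lt PF.zero (PF.coord j)).and (SAP.eq (PF.coord k) ((PF.coord i).mul (PF.coord j))))),
    fun n => ?_⟩
  refine ⟨decide (n i = 0 ∧ n j = 0 ∧ n k = 0), fun t ht => ?_⟩
  simp only [decide_eq_true_eq]
  obtain ⟨hk0, hk1⟩ := ht k
  obtain ⟨hi0, hi1⟩ := ht i
  obtain ⟨hj0, hj1⟩ := ht j
  have key : ∀ (a : ℤ) (s : ℝ), 0 ≤ s → s < 1 → (0 < (a : ℝ) + s ∧ (a : ℝ) + s < 1) → a = 0 := by
    intro a s h0 h1 h
    have h3 : (a : ℝ) < 1 := by linarith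
    have h4 : (-1 : ℝ) < a := by linarith
    have h5 : a < 1 := by exact_mod_cast h3
    have h6 : -1 < a := by exact_mod_cast h4
    omega
  constructor
  · rintro ⟨h1, h2, h3⟩
    have hni := key _ _ hi0 hi1 h1
    have hnj := key _ _ hj0 hj1 h2
    have hprod : 0 < ((n i : ℝ) + t i) * (n j + t j) ∧ ((n i : ℝ) + t i) * (n j + t j) < 1 :=
      ⟨mul_pos h1.1 h2.1, by nlinarith [h1.1, h1.2, h2.1, h2.2]⟩
    rw [← h3] at hprod
    have hnk := key _ _ hk0 hk1 hprod
    rw [hni] at h1
    rw [hnj] at h2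
    rw [hni, hnj, hnk] at h3
    simp only [Int.cast_zero, zero_add] at h1 h2 h3
    exact ⟨⟨hni, hnj, hnk⟩, h1.1, h2.1, h3⟩
  · rintro ⟨⟨hni, hnj, hnk⟩, h1, h2, h3⟩
    rw [hni, hnj, hnk]
    simp only [Int.cast_zero, zero_add]
    exact ⟨⟨h1, hi1⟩, ⟨h2, hj1⟩, h3⟩

theorem Dd.int (i : ι) : Dd (fun v : ι → ℝ => ∃ n : ℤ, v i = n) := by
  refine ⟨Unit, inferInstance, fun _ v => v i = 0, fun _ => SAP.eq (PF.coord i) PF.zero,
    fun n => ⟨(), fun t ht => ?_⟩⟩
  constructor
  · rintro ⟨m, hm⟩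
    have hm' : (n i : ℝ) + t i = m := hm
    have h1 : (n i : ℝ) + t i = m + 0 := by rw [hm', add_zero]
    exact ((int_eq (ht i) (by norm_num)).1 h1).2
  · intro h
    refine ⟨n i, ?_⟩
    change (n i : ℝ) + t i = n i
    rw [h, add_zero]

/-- the value of a term -/
theorem Dd.term (t : LW.Term ι) : Dd (fun w : Option ι → ℝ => w none = t.realize fun i => w (some i)) := by
  induction t with
  | var i => exact Dd.eq none (some i)
  | @func k f ts ih =>
    cases f with
    | add =>
      -- coordinates: none = new, some none = second value ...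
      have h0 := (ih 0).comp (ι' := Option (Option (Option ι)))
        (fun o => o.elim (some none) fun i => some (some (some i)))
      have h1 := (ih 1).comp (ι' := Option (Option (Option ι)))
        (fun o => o.elim none fun i => some (some (some i)))
      have h2 : Dd (fun w : Option (Option (Option ι)) → ℝ => w (some (some none)) =
        w (some none) + w none) := Dd.add _ _ _
      have h3 := ((h0.and h1).and h2).exists.exists
      refine h3.congr fun w => ?_
      constructor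
      · intro h
        exact ⟨(ts 0).realize fun i => w (some i), (ts 1).realize fun i => w (some i),
          ⟨rfl, rfl⟩, h⟩
      · rintro ⟨x, y, ⟨h4, h5⟩, h6⟩
        have h4' : x = (ts 0).realize fun i => w (some i) := h4
        have h5' : y = (ts 1).realize fun i => w (some i) := h5
        have h6' : w none = x + y := h6
        rw [h4', h5'] at h6'
        exact h6'

/-- substitution of a term -/
theorem Dd.subst {p : (Option ι → ℝ) → Prop} (hp : Dd p) (t : LW.Term ι) :
    Dd (fun w : ι → ℝ => p (ext (t.realize w) w)) := by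
  refine ((Dd.term t).and hp).exists.congr fun w => ?_
  constructor
  · intro h; exact ⟨_, rfl, h⟩
  · rintro ⟨x, hx, h⟩
    have hx' : x = t.realize w := hx
    rw [← hx']; exact h

/-- renaming in a term commutes with evaluation -/
theorem realize_up (t : LW.Term ι) (w : Option ι → ℝ) :
    (t.relabel some).realize w = t.realize fun i => w (some i) := by
  rw [Term.realize_relabel]; rfl

theorem Dd.formula {α : Type} {n : ℕ} (φ : LW.BoundedFormula α n) :
    Dd (fun w : α ⊕ Fin n → ℝ => φ.Realize (fun i => w (Sum.inl i)) (fun j => w (Sum.inr j))) := by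
  have hel : ∀ {n : ℕ} (w : α ⊕ Fin n → ℝ),
      Sum.elim (fun i => w (Sum.inl i)) (fun j => w (Sum.inr j)) = w := fun w => by
    funext i; rcases i with i | i <;> rfl
  induction φ with
  | falsum =>
    exact ⟨Unit, inferInstance, fun _ _ => False, fun _ => SAP.const _, fun _ => ⟨(), fun _ _ => Iff.rfl⟩⟩
  | @equal n t₁ t₂ =>
    have h1 : Dd (fun w : Option (Option (α ⊕ Fin n)) → ℝ => w none = w (some none)) := Dd.eq _ _
    refine ((h1.subst (t₂.relabel some)).subst t₁).congr fun w => ?_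
    rw [realize_up]
    change t₁.realize (Sum.elim _ _) = t₂.realize (Sum.elim _ _) ↔ _
    rw [hel]
    exact eq_comm
  | @rel n k r ts =>
    cases r with
    | lt =>
      have h1 : Dd (fun w : Option (Option (α ⊕ Fin n)) → ℝ => w (some none) < w none) := Dd.lt _ _
      refine ((h1.subst ((ts 1).relabel some)).subst (ts 0)).congr fun w => ?_
      rw [realize_up]
      change (ts 0).realize (Sum.elim _ _) < (ts 1).realize (Sum.elim _ _) ↔ _
      rw [hel]
      exact Iff.rfl
    | mul =>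
      have h1 : Dd (fun w : Option (Option (Option (α ⊕ Fin n))) → ℝ =>
        (0 < w (some (some none)) ∧ w (some (some none)) < 1) ∧
        (0 < w (some none) ∧ w (some none) < 1) ∧ w none = w (some (some none)) * w (some none)) :=
        Dd.mul _ _ _
      refine (((h1.subst (((ts 2).relabel some).relabel some)).subst ((ts 1).relabel some)).subst
        (ts 0)).congr fun w => ?_
      simp only [realize_up]
      change ((0 < (ts 0).realize (Sum.elim _ _) ∧ (ts 0).realize (Sum.elim _ _) < 1) ∧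
        (0 < (ts 1).realize (Sum.elim _ _) ∧ (ts 1).realize (Sum.elim _ _) < 1) ∧
        (ts 2).realize (Sum.elim _ _) = (ts 0).realize (Sum.elim _ _) * (ts 1).realize (Sum.elim _ _)) ↔ _
      rw [hel]
      exact Iff.rfl
    | int =>
      have h1 : Dd (fun w : Option (α ⊕ Fin n) → ℝ => ∃ m : ℤ, w none = m) := Dd.int _
      refine (h1.subst (ts 0)).congr fun w => ?_
      change (∃ m : ℤ, (ts 0).realize (Sum.elim _ _) = (m : ℝ)) ↔ _
      rw [hel]
      exact Iff.rfl
  | @imp n f g ihf ihg => exact ihf.imp ihg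
  | @all n f ih =>
    have h1 := (ih.comp (ι' := Option (α ⊕ Fin n)) (fun i => match i with
      | Sum.inl i => some (Sum.inl i)
      | Sum.inr j => Fin.lastCases none (fun j => some (Sum.inr j)) j)).not.exists.not
    refine h1.congr fun w => ?_
    rw [BoundedFormula.realize_all, not_exists]
    refine forall_congr' fun x => ?_
    rw [not_not]
    have e1 : (fun j : Fin (n + 1) => ext x w (Fin.lastCases (motive := fun _ => Option (α ⊕ Fin n))
        none (fun j => some (Sum.inr j)) j)) =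
        Fin.snoc (α := fun _ => ℝ) (fun j => w (Sum.inr j)) x := by
      funext j
      refine Fin.lastCases ?_ (fun j => ?_) j
      · rw [Fin.lastCases_last, Fin.snoc_last]; rfl
      · rw [Fin.lastCases_castSucc, Fin.snoc_castSucc]; rfl
    rw [← e1]
    exact Iff.rfl

/-! ### Graphs of definable functions -/

open Polynomial in
/-- sections of a definable graph: finitely many sets, given by signs of finitely many polynomials -/
theorem sections {f : ℝ → ℝ} (hf : DefinableFun f) :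
    ∃ (κ : Type) (_ : Finite κ) (T : κ → ℝ → ℝ → Prop) (Q : Finset ℝ[X][Y]) (j : ℤ → ℤ → κ),
      (∀ k s t s' t', (∀ q ∈ Q, SignType.sign (evalEval s t q) = SignType.sign (evalEval s' t' q)) →
        (T k s t → T k s' t')) ∧
      ∀ (a b : ℤ) (s t : ℝ), 0 ≤ s ∧ s < 1 → 0 ≤ t ∧ t < 1 → (f (a + s) = b + t ↔ T (j a b) s t) := by
  classical
  unfold DefinableFun at hf
  rw [Set.definable_iff_exists_formula_sum] at hf
  obtain ⟨φ, hφ⟩ := hf
  have hD : Dd (fun v : (Set.univ : Set ℝ) ⊕ Fin 2 → ℝ => φ.Realize v) := by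
    refine ((Dd.formula φ).comp (ι' := (Set.univ : Set ℝ) ⊕ Fin 2)
      (Sum.elim id fun i => Fin.elim0 i)).congr fun v => ?_
    unfold Formula.Realize
    refine iff_of_eq ?_
    congr 1
    funext i; exact Fin.elim0 i
  obtain ⟨κ, hκ, S, hS, h⟩ := hD
  have := Fintype.ofFinite κ
  choose R hR using fun k => hS k
  -- specialisation of the parameters
  let σ : (Set.univ : Set ℝ) ⊕ Fin 2 → ℝ[X][Y] :=
    Sum.elim (fun c => C (C (Int.fract (c : ℝ)))) ![C X, X]
  let sp : MvPolynomial ((Set.univ : Set ℝ) ⊕ Fin 2) ℚ →+* ℝ[X][Y] :=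
    MvPolynomial.eval₂Hom (algebraMap ℚ ℝ[X][Y]) σ
  let V : ℝ → ℝ → (Set.univ : Set ℝ) ⊕ Fin 2 → ℝ := fun s t =>
    Sum.elim (fun c => Int.fract (c : ℝ)) ![s, t]
  have hsp : ∀ s t q, evalEval s t (sp q) = MvPolynomial.aeval (V s t) q := by
    intro s t q
    have h1 : (evalEvalRingHom s t).comp sp =
      (MvPolynomial.aeval (V s t) : MvPolynomial ((Set.univ : Set ℝ) ⊕ Fin 2) ℚ →ₐ[ℚ] ℝ).toRingHom := by
      refine MvPolynomial.ringHom_ext (fun r => ?_) (fun i => ?_)
      · simp [sp]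
      · rcases i with c | i
        · simp [sp, σ, V]
        · fin_cases i <;> simp [sp, σ, V]
    exact congrArg (fun g : MvPolynomial ((Set.univ : Set ℝ) ⊕ Fin 2) ℚ →+* ℝ => g q) h1
  refine ⟨κ, hκ, fun k s t => S k (V s t), Finset.univ.biUnion fun k => (R k).image sp,
    fun a b => (h (Sum.elim (fun c => ⌊(c : ℝ)⌋) ![a, b])).choose, ?_, ?_⟩
  · intro k s t s' t' hq
    refine hR k _ _ fun q hqR => ?_
    rw [← hsp, ← hsp]
    exact hq _ (Finset.mem_biUnion.2 ⟨k, Finset.mem_univ _, Finset.mem_image_of_mem _ hqR⟩)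
  · intro a b s t hs ht
    have h1 := (h (Sum.elim (fun c => ⌊(c : ℝ)⌋) ![a, b])).choose_spec (V s t) (by
      rintro (c | i)
      · exact ⟨Int.fract_nonneg _, Int.fract_lt_one _⟩
      · fin_cases i
        · exact hs
        · exact ht)
    refine Iff.trans ?_ h1
    change _ ↔ φ.Realize (fun i =>
      ((Sum.elim (fun c : (Set.univ : Set ℝ) => ⌊(c : ℝ)⌋) ![a, b] i : ℤ) : ℝ) + V s t i)
    have h2 : (fun i => ((Sum.elim (fun c : (Set.univ : Set ℝ) => ⌊(c : ℝ)⌋) ![a, b] i : ℤ) : ℝ) +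
        V s t i) = Sum.elim (fun c : (Set.univ : Set ℝ) => (c : ℝ)) ![a + s, b + t] := by
      funext i
      rcases i with c | i
      · exact Int.floor_add_fract _
      · fin_cases i <;> rfl
    rw [h2]
    have h3 : (![a + s, b + t] : Fin 2 → ℝ) ∈ {p : Fin 2 → ℝ | p 1 = f (p 0)} ↔
        φ.Realize (Sum.elim (fun c : (Set.univ : Set ℝ) => (c : ℝ)) ![a + s, b + t]) := by
      rw [hφ]; exact Iff.rfl
    rw [← h3]
    change _ ↔ b + t = f (a + s)
    exact eq_comm

open Polynomial in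
theorem exists_alg {f : ℝ → ℝ} (hf : DefinableFun f) :
    ∃ Q : ℝ[X][Y], Q ≠ 0 ∧ ∀ x, evalEval (Int.fract x) (Int.fract (f x)) Q = 0 := by
  classical
  obtain ⟨κ, hκ, T, Q, j, hT, h⟩ := sections hf
  refine ⟨∏ q ∈ Q.filter (· ≠ 0), q, Finset.prod_ne_zero_iff.2 fun q hq => (Finset.mem_filter.1 hq).2,
    fun x => ?_⟩
  by_contra hne
  set s := Int.fract x with hs
  set t := Int.fract (f x) with ht
  have hne' : ∀ q ∈ Q, q ≠ 0 → evalEval s t q ≠ 0 := by
    intro q hq hq0 h0
    apply hne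
    have : evalEval s t (∏ q ∈ Q.filter (· ≠ 0), q) = ∏ q ∈ Q.filter (· ≠ 0), evalEval s t q :=
      map_prod (evalEvalRingHom s t) _ _
    rw [this]
    exact Finset.prod_eq_zero (Finset.mem_filter.2 ⟨hq, hq0⟩) h0
  have ht0 : 0 ≤ t := Int.fract_nonneg _
  have ht1 : t < 1 := Int.fract_lt_one _
  have hs0 : 0 ≤ s ∧ s < 1 := ⟨Int.fract_nonneg _, Int.fract_lt_one _⟩
  have hcont : ∀ q : ℝ[X][Y], Continuous fun y => evalEval s y q := by
    intro q
    have : (fun y => evalEval s y q) = fun y => (q.map (evalRingHom s)).eval y := by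
      funext y
      rw [← map_evalRingHom_eval]
    rw [this]
    exact Polynomial.continuous _
  have hev : ∀ᶠ t' in nhds t, (∀ q ∈ Q, SignType.sign (evalEval s t q) =
      SignType.sign (evalEval s t' q)) ∧ t' < 1 := by
    refine Filter.Eventually.and ?_ (eventually_lt_nhds ht1)
    rw [Filter.eventually_all_finset]
    intro q hq
    by_cases hq0 : q = 0
    · subst hq0; simp
    · have h1 := hne' q hq hq0
      rcases lt_or_gt_of_ne h1 with h2 | h2
      · filter_upwards [(hcont q).continuousAt.eventually_lt (continuousAt_const (y := (0:ℝ))) h2]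
          with y hy
        rw [sign_neg h2, sign_neg hy]
      · filter_upwards [(continuousAt_const (y := (0:ℝ))).eventually_lt (hcont q).continuousAt h2]
          with y hy
        rw [sign_pos h2, sign_pos hy]
  obtain ⟨t', ht', hgt⟩ : ∃ t', ((∀ q ∈ Q, SignType.sign (evalEval s t q) =
      SignType.sign (evalEval s t' q)) ∧ t' < 1) ∧ t < t' :=
    ((hev.filter_mono nhdsWithin_le_nhds).and (self_mem_nhdsWithin (s := Set.Ioi t))).exists
  have h1 : f ((⌊x⌋ : ℝ) + s) = ⌊f x⌋ + t := by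
    rw [hs, Int.floor_add_fract, ht, Int.floor_add_fract]
  have h2 := (h ⌊x⌋ ⌊f x⌋ s t hs0 ⟨ht0, ht1⟩).1 h1
  have h3 := hT _ s t s t' ht'.1 h2
  have h4 := (h ⌊x⌋ ⌊f x⌋ s t' hs0 ⟨by linarith, ht'.2⟩).2 h3
  linarith

open Polynomial in
theorem shift_poly (Q : ℝ[X][Y]) (hQ : Q ≠ 0) (a b : ℝ) :
    ∃ P : ℝ[X][Y], P ≠ 0 ∧ ∀ x y, evalEval x y P = evalEval (x - a) (y - b) Q := by
  let φ : ℝ[X] →+* ℝ[X] := compRingHom (X - C a)
  have hφ : Function.Injective φ := by
    intro p q hpq
    have : p.comp (X - C a) = q.comp (X - C a) := hpq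
    have h2 := congrArg (fun r => r.comp (X + C a)) this
    simpa [comp_assoc] using h2
  refine ⟨(Q.map φ).comp (X + C (C (-b))), ?_, fun x y => ?_⟩
  · rw [Ne, comp_X_add_C_eq_zero_iff]
    exact fun h0 => hQ (Polynomial.map_injective φ hφ (by rw [h0, Polynomial.map_zero]))
  · have h0 : evalEval x y ((Q.map φ).comp (X + C (C (-b)))) = evalEval x (y - b) (Q.map φ) := by
      simp only [Polynomial.evalEval, eval_comp, eval_add, eval_X, eval_C]
      rw [← C_add, sub_eq_add_neg]
    rw [h0]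
    generalize y - b = y'
    clear hQ h0
    induction Q using Polynomial.induction_on' with
    | add p q hp hq =>
      rw [Polynomial.map_add, evalEval_add, evalEval_add, hp, hq]
    | monomial n c =>
      rw [Polynomial.map_monomial]
      simp only [Polynomial.evalEval, eval_monomial, eval_mul, eval_pow, eval_C]
      congr 1
      change (c.comp (X - C a)).eval x = _
      rw [eval_comp]; simp

open Polynomial in
/-- a continuous definable function is algebraic on bounded intervals -/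
theorem alg_of_definable {f : ℝ → ℝ} (hf : DefinableFun f) (hc : Continuous f) :
    Pool.Agent.Q201.AS.Alg f := by
  classical
  obtain ⟨Q, hQ, h⟩ := exists_alg hf
  intro N
  obtain ⟨B, hB⟩ : ∃ B : ℕ, ∀ x : ℝ, |x| ≤ N → |f x| ≤ B := by
    have hcp : IsCompact (Set.Icc (-(N : ℝ)) N) := isCompact_Icc
    obtain ⟨C, hC⟩ := hcp.exists_bound_of_continuousOn hc.continuousOn
    obtain ⟨B, hB⟩ := exists_nat_ge C
    refine ⟨B, fun x hx => ?_⟩
    rw [abs_le] at hx
    exact (hC x hx).trans hB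
  choose P hP0 hP using fun p : ℤ × ℤ => shift_poly Q hQ p.1 p.2
  refine ⟨∏ p ∈ Finset.Icc (-(N : ℤ) - 1) N ×ˢ Finset.Icc (-(B : ℤ) - 1) B, P p,
    Finset.prod_ne_zero_iff.2 fun p _ => hP0 p, fun x hx => ?_⟩
  have h1 : evalEval x (f x) (∏ p ∈ Finset.Icc (-(N : ℤ) - 1) N ×ˢ Finset.Icc (-(B : ℤ) - 1) B, P p) =
      ∏ p ∈ Finset.Icc (-(N : ℤ) - 1) N ×ˢ Finset.Icc (-(B : ℤ) - 1) B, evalEval x (f x) (P p) :=
    map_prod (evalEvalRingHom x (f x)) _ _
  rw [h1]
  have hfl : ∀ (M : ℕ) (y : ℝ), |y| ≤ M → ⌊y⌋ ∈ Finset.Icc (-(M : ℤ) - 1) M := by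
    intro M y hy
    rw [abs_le] at hy
    rw [Finset.mem_Icc]
    constructor
    · rw [Int.le_floor]; push_cast; linarith
    · have h2 : (⌊y⌋ : ℝ) ≤ M := (Int.floor_le y).trans hy.2
      exact_mod_cast h2
  refine Finset.prod_eq_zero (i := (⌊x⌋, ⌊f x⌋))
    (Finset.mem_product.2 ⟨hfl N x hx, hfl B (f x) (hB x hx)⟩) ?_
  rw [hP]
  exact h x

/-- a continuous definable function has a quasi-period on some interval -/
theorem exists_quasi {f : ℝ → ℝ} (hf : DefinableFun f) (hc : Continuous f) :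
    ∃ (a d k : ℤ), d ≠ 0 ∧ ∀ x ∈ Set.Ioo (a : ℝ) (a + 1), f (x + d) = f x + k := by
  obtain ⟨κ, hκ, T, Q, j, hT, h⟩ := sections hf
  obtain ⟨a, a', hne, hτ⟩ := Finite.exists_ne_map_eq_of_infinite
    (fun a : ℤ => Set.range fun b : ℤ => j a b)
  have hint : ∀ s : ℝ, 0 ≤ s ∧ s < 1 → ∃ m : ℤ, f (a' + s) - f (a + s) = m := by
    intro s hs
    have h1 := (h a ⌊f (a + s)⌋ s (Int.fract (f (a + s))) hs
      ⟨Int.fract_nonneg _, Int.fract_lt_one _⟩).1 (Int.floor_add_fract _).symm
    have h2 : j a ⌊f (a + s)⌋ ∈ Set.range fun b : ℤ => j a' b := by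
      rw [← hτ]; exact ⟨_, rfl⟩
    obtain ⟨b', hb'⟩ := h2
    have hb'' : j a' b' = j a ⌊f (a + s)⌋ := hb'
    rw [← hb''] at h1
    have h3 := (h a' b' s (Int.fract (f (a + s))) hs
      ⟨Int.fract_nonneg _, Int.fract_lt_one _⟩).2 h1
    refine ⟨b' - ⌊f (a + s)⌋, ?_⟩
    rw [h3, Int.fract]; push_cast; ring
  have hgc : Continuous fun s => f (a' + s) - f (a + s) :=
    (hc.comp (continuous_const.add continuous_id)).sub (hc.comp (continuous_const.add continuous_id))
  have hle : ∀ s ∈ Set.Ioo (0:ℝ) 1, ∀ s' ∈ Set.Ioo (0:ℝ) 1,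
      ¬ (f (a' + s) - f (a + s) < f (a' + s') - f (a + s')) := by
    intro s hs s' hs' hlt
    obtain ⟨m, hm⟩ := hint s ⟨hs.1.le, hs.2⟩
    obtain ⟨m', hm'⟩ := hint s' ⟨hs'.1.le, hs'.2⟩
    have h1 := isPreconnected_Ioo.intermediate_value hs hs' hgc.continuousOn
    rw [hm, hm'] at hlt
    have h2 : m + 1 ≤ m' := by exact_mod_cast hlt
    have h2' : (m : ℝ) + 1 ≤ m' := by exact_mod_cast h2
    have h3 : (m : ℝ) + 1 / 2 ∈ Set.Icc (f (a' + s) - f (a + s)) (f (a' + s') - f (a + s')) := by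
      rw [hm, hm']
      constructor <;> linarith
    obtain ⟨s'', hs'', h4⟩ := h1 h3
    obtain ⟨m'', hm''⟩ := hint s'' ⟨hs''.1.le, hs''.2⟩
    have h5 : (m'' : ℝ) = m + 1 / 2 := by rw [← hm'']; exact h4
    have h6 : ((2 * m'' : ℤ) : ℝ) = ((2 * m + 1 : ℤ) : ℝ) := by push_cast; linarith
    have h7 : 2 * m'' = 2 * m + 1 := by exact_mod_cast h6
    omega
  obtain ⟨k, hk⟩ := hint (1 / 2) (by norm_num)
  refine ⟨a, a' - a, k, sub_ne_zero.2 hne.symm, fun x hx => ?_⟩
  have hs : x - a ∈ Set.Ioo (0:ℝ) 1 := ⟨by linarith [hx.1], by linarith [hx.2]⟩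
  have hhalf : (1 / 2 : ℝ) ∈ Set.Ioo (0:ℝ) 1 := by norm_num
  have h1 := le_antisymm (not_lt.1 (hle _ hhalf _ hs)) (not_lt.1 (hle _ hs _ hhalf))
  rw [hk] at h1
  have e1 : (a : ℝ) + (x - a) = x := by ring
  have e2 : (a' : ℝ) + (x - a) = x + ((a' - a : ℤ) : ℝ) := by push_cast; ring
  rw [e1, e2] at h1
  linarith

/-- **Main theorem.** Every smooth function `ℝ → ℝ` definable (with real parameters) in the structure
`(ℝ, <, +, · restricted to (0,1)², ℤ)` is affine. -/
theorem result : ∀ f : ℝ → ℝ, ContDiff ℝ ∞ f → DefinableFun f →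
    ∃ a b : ℝ, ∀ x, f x = a * x + b := by
  intro f hs hf
  obtain ⟨a, d, k, hd, h⟩ := exists_quasi hf hs.continuous
  exact Pool.Agent.Q201.AS.affine_of_quasiperiod hs (alg_of_definable hf hs.continuous)
    (d := (d : ℝ)) (k := (k : ℝ)) (by exact_mod_cast hd) (lt_add_one (a : ℝ)) h

end Pool.Agent.Results.MP_2d1a26_lc.SmoothIsAffine
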